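import Pool.Agent.Lib_helper74.Tori.Small

set_option autoImplicit false

/-!
# The autocorrelation bound at all frequencies with a small direction: counting
-/

namespace Pool.Agent.Lib_helper74.Tori

open Pool.Agent.Lib_helper43.Tori

/-- The pairs `p`, `q` have the same sum and their first members differ by a vector with a small
direction. -/
def Rl (f n : ℤ) (p q : V3 × V3) : Prop := p.1 + p.2 = q.1 + q.2 ∧ Sm f n (p.1 - q.1)

theorem Rl.symm {f n : ℤ} {p q : V3 × V3} (h : Rl f n p q) : Rl f n q p := by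
  refine ⟨h.1.symm, ?_⟩
  have := h.2.neg
  rwa [neg_sub] at this

theorem Rl.swap {f n : ℤ} {p q : V3 × V3} (h : Rl f n p q) : Rl f n p.swap q.swap := by
  refine ⟨?_, ?_⟩
  · change p.2 + p.1 = q.2 + q.1
    rw [add_comm, h.1, add_comm]
  · change Sm f n (p.2 - q.2)
    have h1 : p.2 - q.2 = -(p.1 - q.1) := by
      have h2 := h.1
      have h3 : p.2 = q.1 + q.2 - p.1 := by
        rw [← h2]
        abel
      rw [h3]
      abel
    rw [h1]
    exact h.2.neg

/-- The pairs `p`, `r` have a common neighbour. -/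
def R2 (A : Finset V3) (f n : ℤ) (p r : V3 × V3) : Prop :=
  ∃ q ∈ A ×ˢ A, Rl f n p q ∧ Rl f n q r

theorem R2.swap {A : Finset V3} {f n : ℤ} {p r : V3 × V3} (h : R2 A f n p r) :
    R2 A f n p.swap r.swap := by
  obtain ⟨q, hq, h1, h2⟩ := h
  refine ⟨q.swap, ?_, h1.swap, h2.swap⟩
  rw [Finset.mem_product] at hq ⊢
  exact ⟨hq.2, hq.1⟩

theorem R2.two {A : Finset V3} {f n : ℤ} (hA : ∀ x ∈ A, nq x = n) {p r : V3 × V3}
    (hp : p ∈ A ×ˢ A) (hr : r ∈ A ×ˢ A) (h : R2 A f n p r) : Two f n p.1 r.1 (p.1 + p.2) := by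
  obtain ⟨q, hq, h1, h2⟩ := h
  rw [Finset.mem_product] at hp hr hq
  obtain ⟨hs1, hn1, t1, w1, ht1, hv1, hw1⟩ := h1
  obtain ⟨hs2, hn2, t2, w2, ht2, hv2, hw2⟩ := h2
  refine ⟨q.1, t1, t2, w1, -w2, hA _ hq.1, ?_, ?_, ?_, hv1, ?_, ht1, ht2, sub_ne_zero.mp hn1,
    (sub_ne_zero.mp hn2).symm, hw1, ?_⟩
  · rw [hs1, add_sub_cancel_left]
    exact hA _ hq.2
  · rw [add_sub_cancel_left]
    exact hA _ hp.2
  · rw [hs1, hs2, add_sub_cancel_left]
    exact hA _ hr.2
  · rw [smul_neg, ← hv2, neg_sub]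
  · rw [nq_neg]
    exact hw2

open Classical in
/-- For fixed first members at most two second members are possible. -/
theorem card_fiber {A : Finset V3} {f n : ℤ} (hA : ∀ x ∈ A, nq x = n)
    (hf : ∀ x ∈ A, Finset.univ.gcd x ≤ f) (hn : 0 < n) {a a' : V3} (ha : a ∈ A) (ha' : a' ∈ A) :
    (((A ×ˢ A).filter fun z => R2 A f n (a, z.1) (a', z.2) ∧ (a, z.1) ≠ (a', z.2)).card : ℝ) ≤
      2 := by
  set F := (A ×ˢ A).filter fun z => R2 A f n (a, z.1) (a', z.2) ∧ (a, z.1) ≠ (a', z.2) with hF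
  have hmem : ∀ z ∈ F, z.1 ∈ A ∧ z.2 ∈ A ∧ a ≠ a' ∧ z.2 = a + z.1 - a' ∧
      Two f n a a' (a + z.1) := by
    intro z hz
    rw [hF, Finset.mem_filter, Finset.mem_product] at hz
    obtain ⟨⟨h1, h2⟩, h3, h4⟩ := hz
    have h5 := R2.two hA (p := (a, z.1)) (r := (a', z.2)) (Finset.mem_product.mpr ⟨ha, h1⟩)
      (Finset.mem_product.mpr ⟨ha', h2⟩) h3
    obtain ⟨q, hq, g1, g2⟩ := h3
    have h6 : a + z.1 = a' + z.2 := g1.1.trans g2.1
    have h7 : z.2 = a + z.1 - a' := by rw [h6, add_sub_cancel_left]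
    refine ⟨h1, h2, ?_, h7, h5⟩
    intro h8
    apply h4
    rw [h7, ← h8, add_sub_cancel_left]
  have hsplit : F = F.filter (fun z => a + z.1 = 0) ∪ F.filter (fun z => ¬ (a + z.1 = 0)) :=
    (Finset.filter_union_filter_not_eq _ _).symm
  have hc1 : (F.filter (fun z => a + z.1 = 0)).card ≤ 1 := by
    rw [Finset.card_le_one]
    intro z hz y hy
    rw [Finset.mem_filter] at hz hy
    have e1 := (hmem z hz.1).2.2.2.1
    have e2 := (hmem y hy.1).2.2.2.1
    have e3 : z.1 = y.1 := add_left_cancel (hz.2.trans hy.2.symm)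
    exact Prod.ext e3 (by rw [e1, e2, e3])
  have hc2 : (F.filter (fun z => ¬ (a + z.1 = 0))).card ≤ 1 := by
    rw [Finset.card_le_one]
    intro z hz y hy
    rw [Finset.mem_filter] at hz hy
    obtain ⟨-, -, hne, e1, t1⟩ := hmem z hz.1
    obtain ⟨-, -, -, e2, t2⟩ := hmem y hy.1
    have e3 : z.1 = y.1 :=
      add_left_cancel (unique_sum (hA a ha) (hA a' ha') hn (hf a ha) hne t1 t2 hz.2 hy.2)
    exact Prod.ext e3 (by rw [e1, e2, e3])
  have h : F.card ≤ 2 := by
    rw [hsplit]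
    exact (Finset.card_union_le _ _).trans (by omega)
  exact_mod_cast h

open Classical in
/-- The sum over the pairs with a common neighbour. -/
theorem sum_R2_le {A : Finset V3} {f n : ℤ} (hA : ∀ x ∈ A, nq x = n)
    (hf : ∀ x ∈ A, Finset.univ.gcd x ≤ f) (hn : 0 < n) (b : V3 → ℝ) :
    ∑ p ∈ A ×ˢ A, ∑ r ∈ A ×ˢ A,
      (if R2 A f n p r then (b p.1 * b p.2) * (b r.1 * b r.2) else 0) ≤
      3 * (∑ x ∈ A, b x ^ 2) ^ 2 := by
  set S : ℝ := ∑ p ∈ A ×ˢ A, ∑ r ∈ A ×ˢ A,
    (if R2 A f n p r ∧ p ≠ r then b p.1 ^ 2 * b r.1 ^ 2 else 0) with hS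
  set S' : ℝ := ∑ p ∈ A ×ˢ A, ∑ r ∈ A ×ˢ A,
    (if R2 A f n p r ∧ p ≠ r then b p.2 ^ 2 * b r.2 ^ 2 else 0) with hS'
  have hD : ∑ p ∈ A ×ˢ A, (b p.1 * b p.2) ^ 2 = (∑ x ∈ A, b x ^ 2) ^ 2 := by
    rw [Finset.sum_product, sq (∑ x ∈ A, b x ^ 2), Finset.sum_mul_sum]
    refine Finset.sum_congr rfl fun x _ => Finset.sum_congr rfl fun y _ => ?_
    ring
  have h1 : ∑ p ∈ A ×ˢ A, ∑ r ∈ A ×ˢ A,
      (if R2 A f n p r then (b p.1 * b p.2) * (b r.1 * b r.2) else 0) ≤
      (∑ x ∈ A, b x ^ 2) ^ 2 + (S + S') / 2 := by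
    rw [← hD, hS, hS', ← Finset.sum_add_distrib, Finset.sum_div, ← Finset.sum_add_distrib]
    refine Finset.sum_le_sum fun p hp => ?_
    rw [← Finset.sum_add_distrib, Finset.sum_div]
    have e1 : (b p.1 * b p.2) ^ 2 = ∑ r ∈ A ×ˢ A, (if r = p then (b p.1 * b p.2) ^ 2 else 0) := by
      rw [Finset.sum_ite_eq', if_pos hp]
    rw [e1, ← Finset.sum_add_distrib]
    refine Finset.sum_le_sum fun r _ => ?_
    by_cases hpr : r = p
    · subst hpr
      have hno : ¬ (R2 A f n r r ∧ r ≠ r) := fun h => h.2 rfl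
      rw [if_pos rfl, if_neg hno, if_neg hno]
      split_ifs
      · nlinarith
      · nlinarith [sq_nonneg (b r.1 * b r.2)]
    · rw [if_neg hpr]
      by_cases h2 : R2 A f n p r
      · rw [if_pos h2, if_pos ⟨h2, fun h => hpr h.symm⟩, if_pos ⟨h2, fun h => hpr h.symm⟩]
        nlinarith [sq_nonneg (b p.1 * b r.1 - b p.2 * b r.2)]
      · rw [if_neg h2, if_neg (fun h => h2 h.1), if_neg (fun h => h2 h.1)]
        norm_num
  have h2 : S' = S := by
    have hsw : ∀ g : V3 × V3 → ℝ, ∑ p ∈ A ×ˢ A, g p.swap = ∑ p ∈ A ×ˢ A, g p := by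
      intro g
      rw [Finset.sum_product, Finset.sum_product, Finset.sum_comm]
      rfl
    rw [hS, hS', ← hsw]
    refine Finset.sum_congr rfl fun p _ => ?_
    rw [← hsw]
    refine Finset.sum_congr rfl fun r _ => ?_
    have h3 : (R2 A f n p.swap r.swap ∧ p.swap ≠ r.swap) ↔ (R2 A f n p r ∧ p ≠ r) := by
      constructor
      · rintro ⟨g1, g2⟩
        refine ⟨?_, fun h => g2 (by rw [h])⟩
        have := g1.swap
        rwa [Prod.swap_swap, Prod.swap_swap] at this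
      · rintro ⟨g1, g2⟩
        exact ⟨g1.swap, fun h => g2 (Prod.swap_injective h)⟩
    by_cases h4 : R2 A f n p r ∧ p ≠ r
    · rw [if_pos h4, if_pos (h3.mpr h4)]
      rfl
    · rw [if_neg h4, if_neg fun h => h4 (h3.mp h)]
  have h3 : S ≤ 2 * (∑ x ∈ A, b x ^ 2) ^ 2 := by
    have e1 : S = ∑ a ∈ A, ∑ a' ∈ A, b a ^ 2 * b a' ^ 2 *
        (((A ×ˢ A).filter fun z => R2 A f n (a, z.1) (a', z.2) ∧
          (a, z.1) ≠ (a', z.2)).card : ℝ) := by
      rw [hS, Finset.sum_product]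
      refine Finset.sum_congr rfl fun a _ => ?_
      have e2 : ∀ c : V3, ∑ r ∈ A ×ˢ A,
          (if R2 A f n (a, c) r ∧ (a, c) ≠ r then b a ^ 2 * b r.1 ^ 2 else 0) =
          ∑ a' ∈ A, ∑ c' ∈ A, (if R2 A f n (a, c) (a', c') ∧ (a, c) ≠ (a', c') then
            b a ^ 2 * b a' ^ 2 else 0) := by
        intro c
        rw [Finset.sum_product]
      rw [Finset.sum_congr rfl fun c _ => e2 c, Finset.sum_comm]
      refine Finset.sum_congr rfl fun a' _ => ?_
      rw [Finset.card_filter, Nat.cast_sum, Finset.mul_sum, Finset.sum_product]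
      refine Finset.sum_congr rfl fun c _ => Finset.sum_congr rfl fun c' _ => ?_
      by_cases h4 : R2 A f n (a, c) (a', c') ∧ (a, c) ≠ (a', c')
      · rw [if_pos h4, if_pos h4]
        simp
      · rw [if_neg h4, if_neg h4]
        simp
    rw [e1, sq (∑ x ∈ A, b x ^ 2), Finset.sum_mul_sum, Finset.mul_sum]
    refine Finset.sum_le_sum fun a ha => ?_
    rw [Finset.mul_sum]
    refine Finset.sum_le_sum fun a' ha' => ?_
    have := card_fiber hA hf hn ha ha'
    have h5 : 0 ≤ b a ^ 2 * b a' ^ 2 := mul_nonneg (sq_nonneg _) (sq_nonneg _)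
    nlinarith
  rw [h2] at h1
  linarith

open Classical in
/-- The squares of the autocorrelations at the vectors with a small direction. -/
theorem small_bound (A : Finset V3) (n f : ℤ) (hA : ∀ x ∈ A, nq x = n)
    (hf : ∀ x ∈ A, Finset.univ.gcd x ≤ f) (T : Finset V3) (hT : ∀ v ∈ T, Sm f n v)
    (b : V3 → ℝ) (hb : ∀ x, 0 ≤ b x) (hb0 : ∀ x, x ∉ A → b x = 0) :
    ∑ v ∈ T, (∑ η ∈ A, b (η + v) * b η) ^ 2 ≤ 3 * (∑ x ∈ A, b x ^ 2) ^ 2 := by
  rcases le_or_gt n 0 with hn | hn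
  · have hT0 : T = ∅ := by
      rw [Finset.eq_empty_iff_forall_notMem]
      intro v hv
      obtain ⟨-, t, w, -, -, hw⟩ := hT v hv
      have : 0 ≤ f ^ 2 * nq w ^ 4 := by positivity
      omega
    rw [hT0, Finset.sum_empty]
    positivity
  refine le_trans ?_ (sum_R2_le hA hf hn b)
  have hedge := sum_edges_le (A ×ˢ A) (Rl f n) (fun p q h => h.symm)
    (fun p => b p.1 * b p.2) (fun p _ => mul_nonneg (hb _) (hb _))
  have hR2 : ∑ p ∈ A ×ˢ A, ∑ r ∈ A ×ˢ A, (if ∃ q ∈ A ×ˢ A, Rl f n p q ∧ Rl f n q r then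
      (b p.1 * b p.2) * (b r.1 * b r.2) else 0) = ∑ p ∈ A ×ˢ A, ∑ r ∈ A ×ˢ A,
      (if R2 A f n p r then (b p.1 * b p.2) * (b r.1 * b r.2) else 0) := by
    refine Finset.sum_congr rfl fun p _ => Finset.sum_congr rfl fun r _ => ?_
    by_cases h : R2 A f n p r
    · rw [if_pos h, if_pos (show ∃ q ∈ A ×ˢ A, Rl f n p q ∧ Rl f n q r from h)]
    · rw [if_neg h, if_neg (show ¬ ∃ q ∈ A ×ˢ A, Rl f n p q ∧ Rl f n q r from h)]
  rw [← hR2]
  refine le_trans ?_ hedge
  have e1 : ∑ p ∈ A ×ˢ A, ∑ q ∈ A ×ˢ A,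
      (if Rl f n p q then (b p.1 * b p.2) * (b q.1 * b q.2) else 0) =
      ∑ η ∈ A, ∑ ζ ∈ A, ∑ α ∈ A, (if Sm f n (α - η) then
        b α * b (α + ζ - η) * (b ζ * b η) else 0) := by
    have e2 : ∀ p : V3 × V3, ∑ q ∈ A ×ˢ A,
        (if Rl f n p q then (b p.1 * b p.2) * (b q.1 * b q.2) else 0) =
        ∑ η ∈ A, (if Sm f n (p.1 - η) then b p.1 * b p.2 * b η * b (p.1 + p.2 - η) else 0) := by
      intro p
      rw [Finset.sum_product]
      refine Finset.sum_congr rfl fun η _ => ?_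
      by_cases h : Sm f n (p.1 - η)
      · rw [if_pos h]
        have e3 : ∀ δ ∈ A, (if Rl f n p (η, δ) then (b p.1 * b p.2) * (b η * b δ) else 0) =
            if δ = p.1 + p.2 - η then b p.1 * b p.2 * b η * b δ else 0 := by
          intro δ _
          have h5 : Rl f n p (η, δ) ↔ δ = p.1 + p.2 - η := by
            constructor
            · intro h6
              rw [h6.1]
              change δ = η + δ - η
              abel
            · intro h6
              refine ⟨?_, h⟩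
              change p.1 + p.2 = η + δ
              rw [h6]
              abel
          by_cases h6 : δ = p.1 + p.2 - η
          · rw [if_pos h6, if_pos (h5.mpr h6)]
            ring
          · rw [if_neg h6, if_neg fun h7 => h6 (h5.mp h7)]
        change ∑ δ ∈ A, (if Rl f n p (η, δ) then (b p.1 * b p.2) * (b η * b δ) else 0) = _
        rw [Finset.sum_congr rfl e3, Finset.sum_ite_eq']
        split_ifs with h7
        · rfl
        · rw [hb0 _ h7, mul_zero]
      · rw [if_neg h]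
        refine Finset.sum_eq_zero fun δ _ => ?_
        rw [if_neg]
        intro h6
        exact h h6.2
    rw [Finset.sum_congr rfl fun p _ => e2 p, Finset.sum_product]
    -- order of summation: (α, ζ, η) to (η, ζ, α)
    rw [Finset.sum_comm]
    have e4 : ∀ ζ : V3, ∑ α ∈ A, ∑ η ∈ A,
        (if Sm f n (α - η) then b α * b ζ * b η * b (α + ζ - η) else 0) =
        ∑ η ∈ A, ∑ α ∈ A, (if Sm f n (α - η) then
        b α * b (α + ζ - η) * (b ζ * b η) else 0) := by
      intro ζ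
      rw [Finset.sum_comm]
      refine Finset.sum_congr rfl fun η _ => Finset.sum_congr rfl fun α _ => ?_
      split_ifs
      · ring
      · rfl
    change ∑ ζ ∈ A, ∑ α ∈ A, ∑ η ∈ A,
        (if Sm f n (α - η) then b α * b ζ * b η * b (α + ζ - η) else 0) = _
    rw [Finset.sum_congr rfl fun ζ _ => e4 ζ, Finset.sum_comm]
  rw [e1]
  have e5 : ∑ v ∈ T, (∑ η ∈ A, b (η + v) * b η) ^ 2 =
      ∑ η ∈ A, ∑ ζ ∈ A, ∑ v ∈ T, b (η + v) * b (ζ + v) * (b ζ * b η) := by
    have e6 : ∀ v ∈ T, (∑ η ∈ A, b (η + v) * b η) ^ 2 =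
        ∑ η ∈ A, ∑ ζ ∈ A, b (η + v) * b (ζ + v) * (b ζ * b η) := by
      intro v _
      rw [sq, Finset.sum_mul_sum]
      refine Finset.sum_congr rfl fun η _ => Finset.sum_congr rfl fun ζ _ => ?_
      ring
    rw [Finset.sum_congr rfl e6, Finset.sum_comm]
    refine Finset.sum_congr rfl fun η _ => ?_
    rw [Finset.sum_comm]
  rw [e5]
  refine Finset.sum_le_sum fun η _ => Finset.sum_le_sum fun ζ _ => ?_
  set g : V3 → ℝ := fun α => (if Sm f n (α - η) then
    b α * b (α + ζ - η) * (b ζ * b η) else 0) with hg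
  have hg0 : ∀ α, 0 ≤ g α := by
    intro α
    change 0 ≤ if Sm f n (α - η) then b α * b (α + ζ - η) * (b ζ * b η) else 0
    split_ifs
    · exact mul_nonneg (mul_nonneg (hb _) (hb _)) (mul_nonneg (hb _) (hb _))
    · exact le_rfl
  have hinj : Set.InjOn (fun v => η + v) (T : Set V3) := fun x _ y _ h => by simpa using h
  calc ∑ v ∈ T, b (η + v) * b (ζ + v) * (b ζ * b η) = ∑ v ∈ T, g (η + v) := by
        refine Finset.sum_congr rfl fun v hv => ?_
        have h1 : η + v - η = v := by abel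
        have h2 : η + v + ζ - η = ζ + v := by abel
        change _ = if Sm f n (η + v - η) then b (η + v) * b (η + v + ζ - η) * (b ζ * b η) else 0
        rw [h1, h2, if_pos (hT v hv)]
    _ = ∑ α ∈ T.image (fun v => η + v), g α := (Finset.sum_image hinj).symm
    _ ≤ ∑ α ∈ T.image (fun v => η + v) ∪ A, g α :=
        Finset.sum_le_sum_of_subset_of_nonneg Finset.subset_union_left fun α _ _ => hg0 α
    _ = ∑ α ∈ A, g α := by
        symm
        refine Finset.sum_subset Finset.subset_union_right fun α _ hα => ?_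
        change (if Sm f n (α - η) then b α * b (α + ζ - η) * (b ζ * b η) else 0) = 0
        rw [hb0 α hα]
        simp

end Pool.Agent.Lib_helper74.Tori
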