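import Mathlib

set_option autoImplicit false

/-!
# Edges and pairs with a common neighbour in a weighted graph
-/

namespace Pool.Agent.Lib_helper74.Tori

open Classical in
/-- In a graph with nonnegative weights the sum over the edges is at most the sum over the pairs of
vertices with a common neighbour. -/
theorem sum_edges_le {ι : Type*} (P : Finset ι) (R : ι → ι → Prop)
    (hR : ∀ p q, R p q → R q p) (x : ι → ℝ) (hx : ∀ p ∈ P, 0 ≤ x p) :
    ∑ p ∈ P, ∑ q ∈ P, (if R p q then x p * x q else 0) ≤
      ∑ p ∈ P, ∑ r ∈ P, (if ∃ q ∈ P, R p q ∧ R q r then x p * x r else 0) := by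
  set d : ι → ℝ := fun p => ∑ q ∈ P, (if R p q then x q else 0) with hd
  set Z : ι → ℝ := fun p => ∑ r ∈ P, (if ∃ q ∈ P, R p q ∧ R q r then x r else 0) with hZ
  have hd0 : ∀ p, 0 ≤ d p := by
    intro p
    refine Finset.sum_nonneg fun q hq => ?_
    split_ifs
    · exact hx q hq
    · exact le_rfl
  have hZ0 : ∀ p, 0 ≤ Z p := by
    intro p
    refine Finset.sum_nonneg fun q hq => ?_
    split_ifs
    · exact hx q hq
    · exact le_rfl
  have hdle : ∀ p, ∀ q ∈ P, R p q → x q ≤ d p := by
    intro p q hq hpq
    have h1 : x q = if R p q then x q else 0 := by rw [if_pos hpq]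
    rw [h1]
    exact Finset.single_le_sum (f := fun q => if R p q then x q else 0) (fun r hr => by
      change (0 : ℝ) ≤ if R p r then x r else 0
      split_ifs
      · exact hx r hr
      · exact le_rfl) hq
  have hZle : ∀ p, ∀ q ∈ P, R p q → d q ≤ Z p := by
    intro p q hq hpq
    refine Finset.sum_le_sum fun r hr => ?_
    by_cases h : R q r
    · rw [if_pos h, if_pos ⟨q, hq, hpq, h⟩]
    · rw [if_neg h]
      split_ifs
      · exact hx r hr
      · exact le_rfl
  set A : ℝ := ∑ p ∈ P, ∑ q ∈ P, (if R p q then x p * x q * (d q / d p) else 0) with hA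
  have h1 : A ≤ ∑ p ∈ P, ∑ r ∈ P, (if ∃ q ∈ P, R p q ∧ R q r then x p * x r else 0) := by
    refine Finset.sum_le_sum fun p hp => ?_
    have e1 : ∑ r ∈ P, (if ∃ q ∈ P, R p q ∧ R q r then x p * x r else 0) = x p * Z p := by
      rw [hZ, Finset.mul_sum]
      refine Finset.sum_congr rfl fun r _ => ?_
      split_ifs
      · rfl
      · rw [mul_zero]
    have e2 : ∑ q ∈ P, (if R p q then x p * x q * (d q / d p) else 0) =
        x p * ((∑ q ∈ P, (if R p q then x q * d q else 0)) / d p) := by
      rw [Finset.sum_div, Finset.mul_sum]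
      refine Finset.sum_congr rfl fun q _ => ?_
      split_ifs
      · ring
      · rw [zero_div, mul_zero]
    rw [e1, e2]
    refine mul_le_mul_of_nonneg_left ?_ (hx p hp)
    rcases (hd0 p).eq_or_lt with h0 | h0
    · rw [← h0, div_zero]
      exact hZ0 p
    · rw [div_le_iff₀ h0]
      have e3 : Z p * d p = ∑ q ∈ P, (if R p q then x q * Z p else 0) := by
        rw [hd, Finset.mul_sum]
        refine Finset.sum_congr rfl fun q _ => ?_
        split_ifs
        · ring
        · rw [mul_zero]
      rw [e3]
      refine Finset.sum_le_sum fun q hq => ?_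
      by_cases h : R p q
      · rw [if_pos h, if_pos h]
        exact mul_le_mul_of_nonneg_left (hZle p q hq h) (hx q hq)
      · rw [if_neg h, if_neg h]
  have h2 : A = ∑ p ∈ P, ∑ q ∈ P, (if R p q then x p * x q * (d p / d q) else 0) := by
    rw [hA, Finset.sum_comm]
    refine Finset.sum_congr rfl fun p _ => Finset.sum_congr rfl fun q _ => ?_
    by_cases h : R p q
    · rw [if_pos h, if_pos (hR _ _ h)]
      ring
    · rw [if_neg h, if_neg fun h' => h (hR _ _ h')]
  have h3 : 2 * ∑ p ∈ P, ∑ q ∈ P, (if R p q then x p * x q else 0) ≤ A +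
      ∑ p ∈ P, ∑ q ∈ P, (if R p q then x p * x q * (d p / d q) else 0) := by
    rw [hA, ← Finset.sum_add_distrib, Finset.mul_sum]
    refine Finset.sum_le_sum fun p hp => ?_
    rw [← Finset.sum_add_distrib, Finset.mul_sum]
    refine Finset.sum_le_sum fun q hq => ?_
    by_cases h : R p q
    · simp only [if_pos h]
      have hp0 := hx p hp
      have hq0 := hx q hq
      rcases hp0.eq_or_lt with h0 | h0
      · rw [← h0]
        simp
      rcases hq0.eq_or_lt with h0' | h0'
      · rw [← h0']
        simp
      have hdp : 0 < d p := lt_of_lt_of_le h0' (hdle p q hq h)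
      have hdq : 0 < d q := lt_of_lt_of_le h0 (hdle q p hp (hR _ _ h))
      have h4 : 2 ≤ d q / d p + d p / d q := by
        rw [div_add_div _ _ hdp.ne' hdq.ne', le_div_iff₀ (mul_pos hdp hdq)]
        nlinarith [sq_nonneg (d q - d p)]
      calc 2 * (x p * x q) = x p * x q * 2 := by ring
        _ ≤ x p * x q * (d q / d p + d p / d q) :=
          mul_le_mul_of_nonneg_left h4 (mul_nonneg hp0 hq0)
        _ = _ := by ring
    · simp only [if_neg h]
      norm_num
  linarith

end Pool.Agent.Lib_helper74.Tori
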