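import Pool.Agent.Lib_helper43.Tori.Scales

set_option autoImplicit false

/-!
# Rotations of small norm between two lattice points of a sphere

The pair `(q, w)` stands for the quaternion with real part `q` and imaginary part `w`.
-/

namespace Pool.Agent.Lib_helper74.Tori

open Pool.Agent.Lib_helper43.Tori

/-- The quaternion `q + w` transports `a` to `b`. -/
structure Tr (q : ℤ) (w a b : V3) : Prop where
  s : dt w a = dt w b
  v0 : q * (a 0 - b 0) = (a 1 + b 1) * w 2 - (a 2 + b 2) * w 1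
  v1 : q * (a 1 - b 1) = (a 2 + b 2) * w 0 - (a 0 + b 0) * w 2
  v2 : q * (a 2 - b 2) = (a 0 + b 0) * w 1 - (a 1 + b 1) * w 0

/-- Two quaternions of small norm which transport `a` to `b` have parallel imaginary parts. -/
theorem cr_eq_zero {n : ℤ} {f : ℤ} {a b w u : V3} {p q : ℤ} (ha : nq a = n) (hn : 0 < n)
    (hf : Finset.univ.gcd a ≤ f) (h1 : Tr q w a b) (h2 : Tr p u a b)
    (hsm : f ^ 2 * ((q ^ 2 + nq w) * (p ^ 2 + nq u)) < n) : cr w u = 0 := by
  have ha0 : a ≠ 0 := by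
    rintro rfl
    have h3 : nq (0 : V3) = 0 := rfl
    rw [h3] at ha
    omega
  obtain ⟨t, a', m, ht, hta, hma, htf⟩ := exists_primitive ha0
  -- imaginary part of the product of the conjugate of the first quaternion with the second
  set r0 : ℤ := q * p + dt w u with hr0
  set r : V3 := ![q * u 0 - p * w 0 - (w 1 * u 2 - w 2 * u 1),
    q * u 1 - p * w 1 - (w 2 * u 0 - w 0 * u 2),
    q * u 2 - p * w 2 - (w 0 * u 1 - w 1 * u 0)] with hr
  have e0 : r 0 = q * u 0 - p * w 0 - (w 1 * u 2 - w 2 * u 1) := rfl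
  have e1 : r 1 = q * u 1 - p * w 1 - (w 2 * u 0 - w 0 * u 2) := rfl
  have e2 : r 2 = q * u 2 - p * w 2 - (w 0 * u 1 - w 1 * u 0) := rfl
  have hnorm : (q ^ 2 + nq w) * (p ^ 2 + nq u) = r0 ^ 2 + nq r := by
    rw [hr0]
    unfold nq dt
    rw [e0, e1, e2]
    ring
  have s1 : w 0 * a 0 + w 1 * a 1 + w 2 * a 2 = w 0 * b 0 + w 1 * b 1 + w 2 * b 2 := h1.s
  have s2 : u 0 * a 0 + u 1 * a 1 + u 2 * a 2 = u 0 * b 0 + u 1 * b 1 + u 2 * b 2 := h2.s
  have c0 : r 1 * a 2 - r 2 * a 1 = 0 := by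
    have : 2 * (r 1 * a 2 - r 2 * a 1) = 0 := by
      rw [e1, e2]
      linear_combination q * h2.v0 + w 0 * s2 - (w 1 * h2.v2 - w 2 * h2.v1) - p * h1.v0 -
        u 0 * s1 - (h1.v1 * u 2 - h1.v2 * u 1)
    omega
  have c1 : r 2 * a 0 - r 0 * a 2 = 0 := by
    have : 2 * (r 2 * a 0 - r 0 * a 2) = 0 := by
      rw [e0, e2]
      linear_combination q * h2.v1 + w 1 * s2 - (w 2 * h2.v0 - w 0 * h2.v2) - p * h1.v1 -
        u 1 * s1 - (h1.v2 * u 0 - h1.v0 * u 2)
    omega
  have c2 : r 0 * a 1 - r 1 * a 0 = 0 := by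
    have : 2 * (r 0 * a 1 - r 1 * a 0) = 0 := by
      rw [e0, e1]
      linear_combination q * h2.v2 + w 2 * s2 - (w 0 * h2.v1 - w 1 * h2.v0) - p * h1.v2 -
        u 2 * s1 - (h1.v0 * u 1 - h1.v1 * u 0)
    omega
  have hrz : r = 0 := by
    by_contra hne
    have a0 : a 0 = t * a' 0 := by rw [hta]; rfl
    have a1 : a 1 = t * a' 1 := by rw [hta]; rfl
    have a2 : a 2 = t * a' 2 := by rw [hta]; rfl
    have d0 : r 1 * a' 2 - r 2 * a' 1 = 0 := by
      have : t * (r 1 * a' 2 - r 2 * a' 1) = 0 := by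
        rw [a1, a2] at c0
        linear_combination c0
      exact (mul_eq_zero.mp this).resolve_left ht.ne'
    have d1 : r 2 * a' 0 - r 0 * a' 2 = 0 := by
      have : t * (r 2 * a' 0 - r 0 * a' 2) = 0 := by
        rw [a0, a2] at c1
        linear_combination c1
      exact (mul_eq_zero.mp this).resolve_left ht.ne'
    have d2 : r 0 * a' 1 - r 1 * a' 0 = 0 := by
      have : t * (r 0 * a' 1 - r 1 * a' 0) = 0 := by
        rw [a0, a1] at c2
        linear_combination c2
      exact (mul_eq_zero.mp this).resolve_left ht.ne'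
    have hma' : m 0 * a' 0 + m 1 * a' 1 + m 2 * a' 2 = 1 := hma
    set y : ℤ := dt m r with hy
    have y0 : r 0 = y * a' 0 := by
      rw [hy]
      unfold dt
      linear_combination (-(r 0)) * hma' + m 1 * d2 - m 2 * d1
    have y1 : r 1 = y * a' 1 := by
      rw [hy]
      unfold dt
      linear_combination (-(r 1)) * hma' + m 2 * d0 - m 0 * d2
    have y2 : r 2 = y * a' 2 := by
      rw [hy]
      unfold dt
      linear_combination (-(r 2)) * hma' + m 0 * d1 - m 1 * d0
    have hy0 : y ≠ 0 := by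
      intro h0
      apply hne
      refine ext3 ?_ ?_ ?_
      · rw [y0, h0, zero_mul]; rfl
      · rw [y1, h0, zero_mul]; rfl
      · rw [y2, h0, zero_mul]; rfl
    have hy1 : 1 ≤ y ^ 2 := by
      have := sq_pos_of_ne_zero hy0
      omega
    have hnr : nq r = y ^ 2 * nq a' := by
      unfold nq
      rw [y0, y1, y2]
      ring
    have hna : n = t ^ 2 * nq a' := by
      rw [← ha]
      unfold nq
      rw [a0, a1, a2]
      ring
    have hna0 : 0 ≤ nq a' := nq_nonneg a'
    have ht1 : t ≤ f := htf.trans hf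
    have ht2 : t ^ 2 ≤ f ^ 2 := by nlinarith
    have h5 : nq a' ≤ nq r := by rw [hnr]; nlinarith
    have h6 : n ≤ f ^ 2 * nq r := by
      rw [hna]
      calc t ^ 2 * nq a' ≤ f ^ 2 * nq a' := mul_le_mul_of_nonneg_right ht2 hna0
        _ ≤ f ^ 2 * nq r := mul_le_mul_of_nonneg_left h5 (sq_nonneg _)
    rw [hnorm] at hsm
    nlinarith [sq_nonneg r0, sq_nonneg f, mul_nonneg (sq_nonneg f) (sq_nonneg r0)]
  have g0 : q * u 0 - p * w 0 - (w 1 * u 2 - w 2 * u 1) = 0 := by rw [← e0, hrz]; rfl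
  have g1 : q * u 1 - p * w 1 - (w 2 * u 0 - w 0 * u 2) = 0 := by rw [← e1, hrz]; rfl
  have g2 : q * u 2 - p * w 2 - (w 0 * u 1 - w 1 * u 0) = 0 := by rw [← e2, hrz]; rfl
  apply nq_eq_zero
  unfold nq
  rw [cr_zero, cr_one, cr_two]
  linear_combination (-(w 1 * u 2 - w 2 * u 1)) * g0 - (w 2 * u 0 - w 0 * u 2) * g1 -
    (w 0 * u 1 - w 1 * u 0) * g2

/-- Two reflections which map `c` to `a` and to `b` compose to a rotation which transports `a` to
`b`. -/
theorem tr_of_refl {n g h : ℤ} {a b c x y : V3} (ha : nq a = n) (hb : nq b = n) (hc : nq c = n)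
    (hx : a - c = g • x) (hy : b - c = h • y) (hg : g ≠ 0) (hh : h ≠ 0) :
    Tr (-dt y x) (cr y x) a b := by
  have x0 : a 0 = c 0 + g * x 0 := by
    have := congrFun hx 0
    simp only [Pi.sub_apply, Pi.smul_apply, smul_eq_mul] at this
    omega
  have x1 : a 1 = c 1 + g * x 1 := by
    have := congrFun hx 1
    simp only [Pi.sub_apply, Pi.smul_apply, smul_eq_mul] at this
    omega
  have x2 : a 2 = c 2 + g * x 2 := by
    have := congrFun hx 2
    simp only [Pi.sub_apply, Pi.smul_apply, smul_eq_mul] at this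
    omega
  have y0 : b 0 = c 0 + h * y 0 := by
    have := congrFun hy 0
    simp only [Pi.sub_apply, Pi.smul_apply, smul_eq_mul] at this
    omega
  have y1 : b 1 = c 1 + h * y 1 := by
    have := congrFun hy 1
    simp only [Pi.sub_apply, Pi.smul_apply, smul_eq_mul] at this
    omega
  have y2 : b 2 = c 2 + h * y 2 := by
    have := congrFun hy 2
    simp only [Pi.sub_apply, Pi.smul_apply, smul_eq_mul] at this
    omega
  unfold nq at ha hb hc
  have gx : 2 * (c 0 * x 0 + c 1 * x 1 + c 2 * x 2) + g * (x 0 ^ 2 + x 1 ^ 2 + x 2 ^ 2) = 0 := by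
    have : g * (2 * (c 0 * x 0 + c 1 * x 1 + c 2 * x 2) + g * (x 0 ^ 2 + x 1 ^ 2 + x 2 ^ 2)) =
        0 := by
      rw [x0, x1, x2] at ha
      linear_combination ha - hc
    exact (mul_eq_zero.mp this).resolve_left hg
  have hy' : 2 * (c 0 * y 0 + c 1 * y 1 + c 2 * y 2) + h * (y 0 ^ 2 + y 1 ^ 2 + y 2 ^ 2) = 0 := by
    have : h * (2 * (c 0 * y 0 + c 1 * y 1 + c 2 * y 2) + h * (y 0 ^ 2 + y 1 ^ 2 + y 2 ^ 2)) =
        0 := by
      rw [y0, y1, y2] at hb
      linear_combination hb - hc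
    exact (mul_eq_zero.mp this).resolve_left hh
  constructor
  · simp only [dt, cr_zero, cr_one, cr_two]
    rw [x0, x1, x2, y0, y1, y2]
    ring
  · simp only [dt, cr_zero, cr_one, cr_two]
    rw [x0, x1, x2, y0, y1, y2]
    linear_combination (-(y 0)) * gx + x 0 * hy'
  · simp only [dt, cr_zero, cr_one, cr_two]
    rw [x0, x1, x2, y0, y1, y2]
    linear_combination (-(y 1)) * gx + x 1 * hy'
  · simp only [dt, cr_zero, cr_one, cr_two]
    rw [x0, x1, x2, y0, y1, y2]
    linear_combination (-(y 2)) * gx + x 2 * hy'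

/-- Norm of the product. -/
theorem norm_mul (x y : V3) : (-dt y x) ^ 2 + nq (cr y x) = nq x * nq y := by
  unfold nq dt
  rw [cr_zero, cr_one, cr_two]
  ring

end Pool.Agent.Lib_helper74.Tori
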