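import Pool.Agent.Lib_helper74.Tori.M2
import Pool.Agent.Lib_helper74.Tori.Quat

set_option autoImplicit false

/-!
# The autocorrelation bound at all frequencies with a small direction
-/

namespace Pool.Agent.Lib_helper74.Tori

open Pool.Agent.Lib_helper43.Tori

/-- Vectors with a small direction. -/
def Sm (f n : ℤ) (v : V3) : Prop :=
  v ≠ 0 ∧ ∃ (t : ℤ) (w : V3), 0 < t ∧ v = t • w ∧ f ^ 2 * nq w ^ 4 < n

theorem nq_neg (x : V3) : nq (-x) = nq x := by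
  unfold nq
  simp only [Pi.neg_apply]
  ring

theorem Sm.neg {f n : ℤ} {v : V3} (h : Sm f n v) : Sm f n (-v) := by
  obtain ⟨h0, t, w, ht, hv, hw⟩ := h
  refine ⟨neg_ne_zero.mpr h0, t, -w, ht, ?_, ?_⟩
  · rw [hv, smul_neg]
  · rw [nq_neg]
    exact hw

theorem par_trans {s w u : V3} (hw : w ≠ 0) (h1 : cr s w = 0) (h2 : cr w u = 0) :
    cr s u = 0 := by
  have a0 : s 1 * w 2 - s 2 * w 1 = 0 := congrFun h1 0
  have a1 : s 2 * w 0 - s 0 * w 2 = 0 := congrFun h1 1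
  have a2 : s 0 * w 1 - s 1 * w 0 = 0 := congrFun h1 2
  have b0 : w 1 * u 2 - w 2 * u 1 = 0 := congrFun h2 0
  have b1 : w 2 * u 0 - w 0 * u 2 = 0 := congrFun h2 1
  have b2 : w 0 * u 1 - w 1 * u 0 = 0 := congrFun h2 2
  have hn : nq w ≠ 0 := (nq_pos hw).ne'
  have s0 : nq w * s 0 = dt s w * w 0 := by
    unfold nq dt
    linear_combination w 1 * a2 - w 2 * a1
  have s1 : nq w * s 1 = dt s w * w 1 := by
    unfold nq dt
    linear_combination w 2 * a0 - w 0 * a2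
  have s2 : nq w * s 2 = dt s w * w 2 := by
    unfold nq dt
    linear_combination w 0 * a1 - w 1 * a0
  refine ext3 ?_ ?_ ?_
  · rw [cr_zero]
    have : nq w * (s 1 * u 2 - s 2 * u 1) = 0 := by
      linear_combination u 2 * s1 - u 1 * s2 + dt s w * b0
    exact (mul_eq_zero.mp this).resolve_left hn
  · rw [cr_one]
    have : nq w * (s 2 * u 0 - s 0 * u 2) = 0 := by
      linear_combination u 0 * s2 - u 2 * s0 + dt s w * b1
    exact (mul_eq_zero.mp this).resolve_left hn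
  · rw [cr_two]
    have : nq w * (s 0 * u 1 - s 1 * u 0) = 0 := by
      linear_combination u 1 * s0 - u 0 * s1 + dt s w * b2
    exact (mul_eq_zero.mp this).resolve_left hn

theorem cr_symm_zero {s w : V3} (h : cr s w = 0) : cr w s = 0 := by
  have a0 : s 1 * w 2 - s 2 * w 1 = 0 := congrFun h 0
  have a1 : s 2 * w 0 - s 0 * w 2 = 0 := congrFun h 1
  have a2 : s 0 * w 1 - s 1 * w 0 = 0 := congrFun h 2
  refine ext3 ?_ ?_ ?_
  · rw [cr_zero]
    change w 1 * s 2 - w 2 * s 1 = 0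
    linear_combination -a0
  · rw [cr_one]
    change w 2 * s 0 - w 0 * s 2 = 0
    linear_combination -a1
  · rw [cr_two]
    change w 0 * s 1 - w 1 * s 0 = 0
    linear_combination -a2

/-- The data of a path of length two. -/
structure Two (f n : ℤ) (a b s : V3) : Prop where
  ex : ∃ (c : V3) (g h : ℤ) (x y : V3), nq c = n ∧ nq (s - c) = n ∧ nq (s - a) = n ∧
    nq (s - b) = n ∧ a - c = g • x ∧ b - c = h • y ∧ 0 < g ∧ 0 < h ∧ a ≠ c ∧ b ≠ c ∧
    f ^ 2 * nq x ^ 4 < n ∧ f ^ 2 * nq y ^ 4 < n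

theorem perp {n g : ℤ} {a c s x : V3} (ha : nq a = n) (hc : nq c = n) (hsa : nq (s - a) = n)
    (hsc : nq (s - c) = n) (hx : a - c = g • x) (hg : g ≠ 0) : dt s x = 0 := by
  have x0 : a 0 - c 0 = g * x 0 := by
    have := congrFun hx 0
    simpa only [Pi.sub_apply, Pi.smul_apply, smul_eq_mul] using this
  have x1 : a 1 - c 1 = g * x 1 := by
    have := congrFun hx 1
    simpa only [Pi.sub_apply, Pi.smul_apply, smul_eq_mul] using this
  have x2 : a 2 - c 2 = g * x 2 := by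
    have := congrFun hx 2
    simpa only [Pi.sub_apply, Pi.smul_apply, smul_eq_mul] using this
  unfold nq at ha hc hsa hsc
  simp only [Pi.sub_apply] at hsa hsc
  have h1 : 2 * (g * dt s x) = 0 := by
    unfold dt
    linear_combination hsc - hsa + ha - hc - 2 * (s 0 * x0 + s 1 * x1 + s 2 * x2)
  have h2 : g * dt s x = 0 := by omega
  exact (mul_eq_zero.mp h2).resolve_left hg

theorem prod_lt {f n x y z t : ℤ} (hx : 0 ≤ x) (hy : 0 ≤ y) (hz : 0 ≤ z) (ht : 0 ≤ t)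
    (h1 : f ^ 2 * x ^ 4 < n) (h2 : f ^ 2 * y ^ 4 < n) (h3 : f ^ 2 * z ^ 4 < n)
    (h4 : f ^ 2 * t ^ 4 < n) : f ^ 2 * ((x * y) * (z * t)) < n := by
  have h5 : 4 * ((x * y) * (z * t)) ≤ x ^ 4 + y ^ 4 + z ^ 4 + t ^ 4 := by
    nlinarith [sq_nonneg (x ^ 2 - y ^ 2), sq_nonneg (z ^ 2 - t ^ 2), sq_nonneg (x * y - z * t)]
  have h6 : f ^ 2 * (4 * ((x * y) * (z * t))) ≤ f ^ 2 * (x ^ 4 + y ^ 4 + z ^ 4 + t ^ 4) :=
    mul_le_mul_of_nonneg_left h5 (sq_nonneg f)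
  nlinarith

/-- The sum vector of a path of length two between `a` and `b` is unique. -/
theorem unique_sum {f n : ℤ} {a b s₁ s₂ : V3} (ha : nq a = n) (hb : nq b = n) (hn : 0 < n)
    (hf : Finset.univ.gcd a ≤ f) (hab : a ≠ b) (h₁ : Two f n a b s₁) (h₂ : Two f n a b s₂)
    (hs₁ : s₁ ≠ 0) (hs₂ : s₂ ≠ 0) : s₁ = s₂ := by
  obtain ⟨c₁, g₁, k₁, x₁, y₁, hc₁, hsc₁, hsa₁, hsb₁, hx₁, hy₁, hg₁, hk₁, hac₁, hbc₁, q₁, r₁⟩ :=
    h₁.ex
  obtain ⟨c₂, g₂, k₂, x₂, y₂, hc₂, hsc₂, hsa₂, hsb₂, hx₂, hy₂, hg₂, hk₂, hac₂, hbc₂, q₂, r₂⟩ :=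
    h₂.ex
  have t₁ := tr_of_refl ha hb hc₁ hx₁ hy₁ hg₁.ne' hk₁.ne'
  have t₂ := tr_of_refl ha hb hc₂ hx₂ hy₂ hg₂.ne' hk₂.ne'
  have hpar : cr (cr y₁ x₁) (cr y₂ x₂) = 0 := by
    refine cr_eq_zero ha hn hf t₁ t₂ ?_
    rw [norm_mul, norm_mul]
    exact prod_lt (nq_nonneg _) (nq_nonneg _) (nq_nonneg _) (nq_nonneg _) q₁ r₁ q₂ r₂
  have key : ∀ (c : V3) (g h : ℤ) (x y s : V3), nq c = n → nq (s - c) = n → nq (s - a) = n →
      nq (s - b) = n → a - c = g • x → b - c = h • y → 0 < g → 0 < h → a ≠ c → b ≠ c →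
      cr s (cr y x) = 0 ∧ cr y x ≠ 0 := by
    intro c g h x y s hc hsc hsa hsb hx hy hg hh hac hbc
    have p1 : dt s x = 0 := perp ha hc hsa hsc hx hg.ne'
    have p2 : dt s y = 0 := perp hb hc hsb hsc hy hh.ne'
    unfold dt at p1 p2
    refine ⟨ext3 ?_ ?_ ?_, ?_⟩
    · rw [cr_zero, cr_one, cr_two]
      change s 1 * (y 0 * x 1 - y 1 * x 0) - s 2 * (y 2 * x 0 - y 0 * x 2) = 0
      linear_combination y 0 * p1 - x 0 * p2
    · rw [cr_one, cr_zero, cr_two]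
      change s 2 * (y 1 * x 2 - y 2 * x 1) - s 0 * (y 0 * x 1 - y 1 * x 0) = 0
      linear_combination y 1 * p1 - x 1 * p2
    · rw [cr_two, cr_one, cr_zero]
      change s 0 * (y 2 * x 0 - y 0 * x 2) - s 1 * (y 1 * x 2 - y 2 * x 1) = 0
      linear_combination y 2 * p1 - x 2 * p2
    · intro h0
      have h1 := not_collinear hc ha hb hac hbc hab
      apply h1
      have e0 : y 1 * x 2 - y 2 * x 1 = 0 := congrFun h0 0
      have e1 : y 2 * x 0 - y 0 * x 2 = 0 := congrFun h0 1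
      have e2 : y 0 * x 1 - y 1 * x 0 = 0 := congrFun h0 2
      rw [hx, hy]
      refine ext3 ?_ ?_ ?_
      · rw [cr_zero]
        simp only [Pi.smul_apply, smul_eq_mul, Pi.zero_apply]
        linear_combination -(g * h) * e0
      · rw [cr_one]
        simp only [Pi.smul_apply, smul_eq_mul, Pi.zero_apply]
        linear_combination -(g * h) * e1
      · rw [cr_two]
        simp only [Pi.smul_apply, smul_eq_mul, Pi.zero_apply]
        linear_combination -(g * h) * e2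
  obtain ⟨k1, k1'⟩ := key c₁ g₁ k₁ x₁ y₁ s₁ hc₁ hsc₁ hsa₁ hsb₁ hx₁ hy₁ hg₁ hk₁ hac₁ hbc₁
  obtain ⟨k2, k2'⟩ := key c₂ g₂ k₂ x₂ y₂ s₂ hc₂ hsc₂ hsa₂ hsb₂ hx₂ hy₂ hg₂ hk₂ hac₂ hbc₂
  have hss : cr s₁ s₂ = 0 :=
    par_trans k1' k1 (par_trans k2' hpar (cr_symm_zero k2))
  by_contra hne
  have h3 := not_collinear (n := n) (p := a) (a := a - s₁) (b := a - s₂) ha
    (by rw [← nq_neg, neg_sub]; exact hsa₁) (by rw [← nq_neg, neg_sub]; exact hsa₂)
    (by
      intro h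
      apply hs₁
      exact sub_eq_self.mp h)
    (by
      intro h
      apply hs₂
      exact sub_eq_self.mp h)
    (by
      intro h
      apply hne
      exact sub_right_injective h)
  apply h3
  have e1 : a - s₁ - a = -s₁ := by abel
  have e2 : a - s₂ - a = -s₂ := by abel
  rw [e1, e2]
  have a0 : s₁ 1 * s₂ 2 - s₁ 2 * s₂ 1 = 0 := congrFun hss 0
  have a1 : s₁ 2 * s₂ 0 - s₁ 0 * s₂ 2 = 0 := congrFun hss 1
  have a2 : s₁ 0 * s₂ 1 - s₁ 1 * s₂ 0 = 0 := congrFun hss 2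
  refine ext3 ?_ ?_ ?_
  · rw [cr_zero]
    simp only [Pi.neg_apply, Pi.zero_apply]
    linear_combination a0
  · rw [cr_one]
    simp only [Pi.neg_apply, Pi.zero_apply]
    linear_combination a1
  · rw [cr_two]
    simp only [Pi.neg_apply, Pi.zero_apply]
    linear_combination a2

end Pool.Agent.Lib_helper74.Tori
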